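import Mathlib
set_option autoImplicit false

namespace Pool.Agent.KS6_69.Ric.H269.KdJ2

namespace S14273

open Set

theorem continuousOn_speed {U : Set (ℂ × ℂ)} {g : ℂ × ℂ → LinearMap.BilinForm ℝ (ℂ × ℂ)}
    (hg : ∀ v w : ℂ × ℂ, ContinuousOn (fun p => g p v w) U) {c : ℝ → ℂ × ℂ}
    (hc : ContDiff ℝ 1 c) (hU : ∀ t ∈ Icc (0 : ℝ) 1, c t ∈ U) :
    ContinuousOn (fun t => Real.sqrt (g (c t) (deriv c t) (deriv c t))) (Icc 0 1) := by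
  have hdc : Continuous (deriv c) := hc.continuous_deriv le_rfl
  have hcc : Continuous c := hc.continuous
  let e : Fin 4 → ℂ × ℂ := ![(1, 0), (Complex.I, 0), (0, 1), (0, Complex.I)]
  let x : Fin 4 → ℂ × ℂ → ℝ := ![fun v => v.1.re, fun v => v.1.im, fun v => v.2.re, fun v => v.2.im]
  have hx : ∀ i, Continuous (x i) := by
    intro i
    fin_cases i
    · exact Complex.continuous_re.comp continuous_fst
    · exact Complex.continuous_im.comp continuous_fst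
    · exact Complex.continuous_re.comp continuous_snd
    · exact Complex.continuous_im.comp continuous_snd
  have hv : ∀ v : ℂ × ℂ, v = ∑ i, x i v • e i := by
    intro v
    rw [Fin.sum_univ_four]
    ext <;> simp [x, e]
  have hexp : ∀ (p v : ℂ × ℂ), g p v v = ∑ i, ∑ j, x i v * (x j v * g p (e i) (e j)) := by
    intro p v
    conv_lhs => rw [hv v]
    simp only [map_sum, LinearMap.sum_apply, map_smul, LinearMap.smul_apply, smul_eq_mul]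
    simp only [Fin.sum_univ_four]
    ring
  refine ContinuousOn.sqrt ?_
  simp only [hexp]
  refine continuousOn_finsetSum (M := ℝ) (Finset.univ : Finset (Fin 4)) fun i _ => ?_
  refine continuousOn_finsetSum (M := ℝ) (Finset.univ : Finset (Fin 4)) fun j _ => ?_
  refine (((hx i).comp hdc).continuousOn).mul ((((hx j).comp hdc).continuousOn).mul ?_)
  exact (hg (e i) (e j)).comp hcc.continuousOn hU

end S14273

namespace S14275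

open Set

theorem compact_metric_bounds_expand (B : LinearMap.BilinForm ℝ (ℂ × ℂ)) (v : ℂ × ℂ) :
    B v v = ∑ i : Fin 4, ∑ j : Fin 4,
      ((![v.1.re, v.1.im, v.2.re, v.2.im] : Fin 4 → ℝ) i *
        (![v.1.re, v.1.im, v.2.re, v.2.im] : Fin 4 → ℝ) j) *
        B ((![((1 : ℂ), (0 : ℂ)), (Complex.I, 0), (0, 1), (0, Complex.I)] : Fin 4 → ℂ × ℂ) i)
          ((![((1 : ℂ), (0 : ℂ)), (Complex.I, 0), (0, 1), (0, Complex.I)] : Fin 4 → ℂ × ℂ) j) := by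
  have h1 : v = v.1.re • ((1 : ℂ), (0 : ℂ)) + v.1.im • (Complex.I, (0 : ℂ)) +
      v.2.re • ((0 : ℂ), (1 : ℂ)) + v.2.im • ((0 : ℂ), Complex.I) := by
    apply Prod.ext
    · apply Complex.ext <;> simp
    · apply Complex.ext <;> simp
  obtain ⟨a, b, c, d, hv⟩ : ∃ a b c d : ℝ, a = v.1.re ∧ b = v.1.im ∧ c = v.2.re ∧ d = v.2.im :=
    ⟨_, _, _, _, rfl, rfl, rfl, rfl⟩
  obtain ⟨ha, hb, hc, hd⟩ := hv
  rw [← ha, ← hb, ← hc, ← hd] at h1 ⊢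
  conv_lhs => rw [h1]
  simp only [Fin.sum_univ_four, map_add, map_smul, LinearMap.add_apply, LinearMap.smul_apply,
    smul_eq_mul, Matrix.cons_val]
  ring

theorem compact_metric_bounds {U K : Set (ℂ × ℂ)}
    {g : ℂ × ℂ → LinearMap.BilinForm ℝ (ℂ × ℂ)}
    (hg : ∀ v w : ℂ × ℂ, ContinuousOn (fun p => g p v w) U)
    (hpos : ∀ p ∈ U, ∀ v : ℂ × ℂ, v ≠ 0 → 0 < g p v v)
    (hK : IsCompact K) (hKU : K ⊆ U) :
    ∃ c > 0, ∃ C > 0, ∀ p ∈ K, ∀ v : ℂ × ℂ,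
      c * ‖v‖ ^ 2 ≤ g p v v ∧ g p v v ≤ C * ‖v‖ ^ 2 := by
  rcases K.eq_empty_or_nonempty with hKe | hKne
  · refine ⟨1, one_pos, 1, one_pos, ?_⟩
    intro p hp
    rw [hKe] at hp
    exact absurd hp (notMem_empty _)
  have hcont : ContinuousOn (fun q : (ℂ × ℂ) × (ℂ × ℂ) => g q.1 q.2 q.2)
      (K ×ˢ Metric.sphere (0 : ℂ × ℂ) 1) := by
    have h1 : (fun q : (ℂ × ℂ) × (ℂ × ℂ) => g q.1 q.2 q.2) = fun q : (ℂ × ℂ) × (ℂ × ℂ) =>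
      ∑ i : Fin 4, ∑ j : Fin 4,
      ((![q.2.1.re, q.2.1.im, q.2.2.re, q.2.2.im] : Fin 4 → ℝ) i *
        (![q.2.1.re, q.2.1.im, q.2.2.re, q.2.2.im] : Fin 4 → ℝ) j) *
        (g q.1) ((![((1 : ℂ), (0 : ℂ)), (Complex.I, 0), (0, 1), (0, Complex.I)] : Fin 4 → ℂ × ℂ) i)
          ((![((1 : ℂ), (0 : ℂ)), (Complex.I, 0), (0, 1), (0, Complex.I)] : Fin 4 → ℂ × ℂ) j) := by
      funext q
      exact compact_metric_bounds_expand (g q.1) q.2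
    rw [h1]
    refine continuousOn_finset_sum _ fun i _ => continuousOn_finset_sum _ fun j _ => ?_
    apply ContinuousOn.mul
    · have h2 : ∀ i : Fin 4, Continuous (fun q : (ℂ × ℂ) × (ℂ × ℂ) =>
          (![q.2.1.re, q.2.1.im, q.2.2.re, q.2.2.im] : Fin 4 → ℝ) i) := by
        intro i
        have e1 : Continuous (fun q : (ℂ × ℂ) × (ℂ × ℂ) => q.2.1.re) := by fun_prop
        have e2 : Continuous (fun q : (ℂ × ℂ) × (ℂ × ℂ) => q.2.1.im) := by fun_prop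
        have e3 : Continuous (fun q : (ℂ × ℂ) × (ℂ × ℂ) => q.2.2.re) := by fun_prop
        have e4 : Continuous (fun q : (ℂ × ℂ) × (ℂ × ℂ) => q.2.2.im) := by fun_prop
        fin_cases i
        · exact e1
        · exact e2
        · exact e3
        · exact e4
      exact ((h2 i).mul (h2 j)).continuousOn
    · have h3 := (hg ((![((1 : ℂ), (0 : ℂ)), (Complex.I, 0), (0, 1), (0, Complex.I)] :
        Fin 4 → ℂ × ℂ) i) ((![((1 : ℂ), (0 : ℂ)), (Complex.I, 0), (0, 1), (0, Complex.I)] :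
        Fin 4 → ℂ × ℂ) j)).mono hKU
      exact h3.comp continuousOn_fst (fun q hq => hq.1)
  have hcomp : IsCompact (K ×ˢ Metric.sphere (0 : ℂ × ℂ) 1) := hK.prod (isCompact_sphere 0 1)
  have hne : (K ×ˢ Metric.sphere (0 : ℂ × ℂ) 1).Nonempty := by
    obtain ⟨p, hp⟩ := hKne
    refine ⟨(p, ((1 : ℂ), (0 : ℂ))), hp, ?_⟩
    rw [mem_sphere_zero_iff_norm]
    simp [Prod.norm_def]
  obtain ⟨⟨p0, v0⟩, ⟨hp0, hv0⟩, hmin⟩ := hcomp.exists_isMinOn hne hcont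
  obtain ⟨⟨p1, v1⟩, ⟨hp1, hv1⟩, hmax⟩ := hcomp.exists_isMaxOn hne hcont
  have hs : ∀ v : ℂ × ℂ, v ∈ Metric.sphere (0 : ℂ × ℂ) 1 → v ≠ 0 := by
    intro v hv h0
    rw [mem_sphere_zero_iff_norm, h0, norm_zero] at hv
    exact zero_ne_one hv
  refine ⟨g p0 v0 v0, hpos p0 (hKU hp0) v0 (hs v0 hv0), g p1 v1 v1,
    hpos p1 (hKU hp1) v1 (hs v1 hv1), ?_⟩
  intro p hp v
  by_cases h0 : v = 0
  · rw [h0]
    simp
  · have hn : 0 < ‖v‖ := norm_pos_iff.2 h0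
    obtain ⟨u, hu⟩ : ∃ u : ℂ × ℂ, u = (‖v‖⁻¹ : ℝ) • v := ⟨_, rfl⟩
    have hus : u ∈ Metric.sphere (0 : ℂ × ℂ) 1 := by
      rw [mem_sphere_zero_iff_norm, hu, norm_smul, norm_inv, norm_norm,
        inv_mul_cancel₀ hn.ne']
    have hvu : v = ‖v‖ • u := by
      rw [hu, smul_smul, mul_inv_cancel₀ hn.ne', one_smul]
    have hg2 : g p v v = ‖v‖ ^ 2 * g p u u := by
      conv_lhs => rw [hvu]
      simp only [map_smul, LinearMap.smul_apply, smul_eq_mul]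
      ring
    have h1 : g p0 v0 v0 ≤ g p u u := hmin (show (p, u) ∈ K ×ˢ Metric.sphere (0 : ℂ × ℂ) 1 from ⟨hp, hus⟩)
    have h2 : g p u u ≤ g p1 v1 v1 := hmax (show (p, u) ∈ K ×ˢ Metric.sphere (0 : ℂ × ℂ) 1 from ⟨hp, hus⟩)
    rw [hg2]
    have hn2 : 0 ≤ ‖v‖ ^ 2 := by positivity
    constructor
    · rw [mul_comm]
      exact mul_le_mul_of_nonneg_left h1 hn2
    · rw [mul_comm (g p1 v1 v1)]
      exact mul_le_mul_of_nonneg_left h2 hn2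

end S14275

namespace S14280

open Set

theorem isCompact_sublevel {k : ℂ → ℝ} (hk : ContinuousOn k (Metric.ball 0 1))
    (hpos : ∀ z : ℂ, ‖z‖ < 1 → 0 < k z) {s : ℕ} (hs : 1 ≤ s) (a : ℝ) :
    IsCompact {p : ℂ × ℂ | p ∈ {p : ℂ × ℂ | ‖p.1‖ < 1 ∧ ‖p.2‖ ^ 2 * k p.1 < 1} ∧
      ((1 - ‖p.1‖ ^ 2)⁻¹) ^ s + Real.log ((1 - ‖p.2‖ ^ 2 * k p.1)⁻¹) ≤ a} := by
  -- bounds for points of the set
  have key : ∀ p : ℂ × ℂ, ‖p.1‖ < 1 → ‖p.2‖ ^ 2 * k p.1 < 1 →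
      ((1 - ‖p.1‖ ^ 2)⁻¹) ^ s + Real.log ((1 - ‖p.2‖ ^ 2 * k p.1)⁻¹) ≤ a →
      1 ≤ a ∧ ‖p.1‖ ^ 2 ≤ 1 - a⁻¹ ∧ ‖p.2‖ ^ 2 * k p.1 ≤ 1 - Real.exp (-a) := by
    intro p h1 h2 h3
    have hk0 := hpos p.1 h1
    have hz2 : ‖p.1‖ ^ 2 < 1 := by
      have := norm_nonneg p.1
      nlinarith
    have hz0 : 0 ≤ ‖p.1‖ ^ 2 := by positivity
    have hu0 : 0 < 1 - ‖p.1‖ ^ 2 := by linarith
    have hu1 : 1 ≤ (1 - ‖p.1‖ ^ 2)⁻¹ := (one_le_inv₀ hu0).2 (by linarith)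
    have hus : (1 - ‖p.1‖ ^ 2)⁻¹ ≤ ((1 - ‖p.1‖ ^ 2)⁻¹) ^ s := by
      calc (1 - ‖p.1‖ ^ 2)⁻¹ = ((1 - ‖p.1‖ ^ 2)⁻¹) ^ 1 := (pow_one _).symm
        _ ≤ _ := pow_le_pow_right₀ hu1 hs
    have ht0 : 0 ≤ ‖p.2‖ ^ 2 * k p.1 := by positivity
    have hv0 : 0 < 1 - ‖p.2‖ ^ 2 * k p.1 := by linarith
    have hv1 : 1 ≤ (1 - ‖p.2‖ ^ 2 * k p.1)⁻¹ := (one_le_inv₀ hv0).2 (by linarith)
    have hlog : 0 ≤ Real.log ((1 - ‖p.2‖ ^ 2 * k p.1)⁻¹) := Real.log_nonneg hv1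
    have hle1 : (1 - ‖p.1‖ ^ 2)⁻¹ ≤ a := by linarith
    have ha1 : 1 ≤ a := by linarith
    have hle2 : Real.log ((1 - ‖p.2‖ ^ 2 * k p.1)⁻¹) ≤ a := by linarith
    refine ⟨ha1, ?_, ?_⟩
    · have : a⁻¹ ≤ 1 - ‖p.1‖ ^ 2 := by
        rw [inv_le_comm₀ (by linarith) hu0]
        exact hle1
      linarith
    · rw [Real.log_inv] at hle2
      have h4 : -a ≤ Real.log (1 - ‖p.2‖ ^ 2 * k p.1) := by linarith
      have h5 := (Real.le_log_iff_exp_le hv0).1 h4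
      linarith
  by_cases ha : 1 ≤ a
  swap
  · have : {p : ℂ × ℂ | p ∈ {p : ℂ × ℂ | ‖p.1‖ < 1 ∧ ‖p.2‖ ^ 2 * k p.1 < 1} ∧
      ((1 - ‖p.1‖ ^ 2)⁻¹) ^ s + Real.log ((1 - ‖p.2‖ ^ 2 * k p.1)⁻¹) ≤ a} = ∅ := by
      ext p
      constructor
      · rintro ⟨⟨h1, h2⟩, h3⟩
        exact (ha (key p h1 h2 h3).1).elim
      · intro h; exact h.elim
    rw [this]; exact isCompact_empty
  have ha0 : 0 < a := by linarith
  set r : ℝ := Real.sqrt (1 - a⁻¹) with hr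
  have hia : a⁻¹ ≤ 1 := inv_le_one_of_one_le₀ ha
  have hia0 : 0 < a⁻¹ := inv_pos.2 ha0
  have hr0 : 0 ≤ r := Real.sqrt_nonneg _
  have hr2 : r ^ 2 = 1 - a⁻¹ := Real.sq_sqrt (by linarith)
  have hr1 : r < 1 := by nlinarith
  have hK1 : IsCompact (Metric.closedBall (0 : ℂ) r) := isCompact_closedBall _ _
  have hsub : Metric.closedBall (0 : ℂ) r ⊆ Metric.ball 0 1 := Metric.closedBall_subset_ball hr1
  obtain ⟨z0, hz0, hmin⟩ := hK1.exists_isMinOn ⟨0, by simpa using hr0⟩ (hk.mono hsub)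
  have hm : 0 < k z0 := hpos z0 (by simpa using hsub hz0)
  set m : ℝ := k z0 with hmdef
  have hmle : ∀ z ∈ Metric.closedBall (0 : ℂ) r, m ≤ k z := fun z hz => hmin hz
  set R : ℝ := Real.sqrt (m⁻¹) with hR
  have hR2 : R ^ 2 = m⁻¹ := Real.sq_sqrt (inv_nonneg.2 hm.le)
  have hR0 : 0 ≤ R := Real.sqrt_nonneg _
  have hbox : IsCompact (Metric.closedBall (0 : ℂ) r ×ˢ Metric.closedBall (0 : ℂ) R) :=
    hK1.prod (isCompact_closedBall _ _)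
  have hkc : ContinuousOn (fun p : ℂ × ℂ => k p.1)
      (Metric.closedBall (0 : ℂ) r ×ˢ Metric.closedBall (0 : ℂ) R) :=
    (hk.mono hsub).comp continuousOn_fst (fun p hp => hp.1)
  have htc : ContinuousOn (fun p : ℂ × ℂ => ‖p.2‖ ^ 2 * k p.1)
      (Metric.closedBall (0 : ℂ) r ×ˢ Metric.closedBall (0 : ℂ) R) :=
    ((continuous_norm.comp continuous_snd).pow 2).continuousOn.mul hkc
  have hB : IsClosed ((Metric.closedBall (0 : ℂ) r ×ˢ Metric.closedBall (0 : ℂ) R) ∩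
      (fun p : ℂ × ℂ => ‖p.2‖ ^ 2 * k p.1) ⁻¹' Iic (1 - Real.exp (-a))) :=
    htc.preimage_isClosed_of_isClosed hbox.isClosed isClosed_Iic
  have hexp : 0 < Real.exp (-a) := Real.exp_pos _
  have hEc : ContinuousOn (fun p : ℂ × ℂ => ((1 - ‖p.1‖ ^ 2)⁻¹) ^ s +
      Real.log ((1 - ‖p.2‖ ^ 2 * k p.1)⁻¹))
      ((Metric.closedBall (0 : ℂ) r ×ˢ Metric.closedBall (0 : ℂ) R) ∩
      (fun p : ℂ × ℂ => ‖p.2‖ ^ 2 * k p.1) ⁻¹' Iic (1 - Real.exp (-a))) := by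
    apply ContinuousOn.add
    · apply ContinuousOn.pow
      apply ContinuousOn.inv₀
      · exact (continuous_const.sub ((continuous_norm.comp continuous_fst).pow 2)).continuousOn
      · intro p hp
        have h1 : ‖p.1‖ ≤ r := by simpa using hp.1.1
        have h2 : 0 ≤ ‖p.1‖ := norm_nonneg _
        have h3 : ‖p.1‖ ^ 2 < 1 := by nlinarith
        linarith
    · apply ContinuousOn.log
      · apply ContinuousOn.inv₀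
        · exact continuousOn_const.sub (htc.mono inter_subset_left)
        · intro p hp
          have h1 : ‖p.2‖ ^ 2 * k p.1 ≤ 1 - Real.exp (-a) := hp.2
          have : 0 < 1 - ‖p.2‖ ^ 2 * k p.1 := by linarith
          exact this.ne'
      · intro p hp
        have h1 : ‖p.2‖ ^ 2 * k p.1 ≤ 1 - Real.exp (-a) := hp.2
        have : 0 < 1 - ‖p.2‖ ^ 2 * k p.1 := by linarith
        exact (inv_pos.2 this).ne'
  have hcl := hEc.preimage_isClosed_of_isClosed hB (isClosed_Iic (a := a))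
  have heq : {p : ℂ × ℂ | p ∈ {p : ℂ × ℂ | ‖p.1‖ < 1 ∧ ‖p.2‖ ^ 2 * k p.1 < 1} ∧
      ((1 - ‖p.1‖ ^ 2)⁻¹) ^ s + Real.log ((1 - ‖p.2‖ ^ 2 * k p.1)⁻¹) ≤ a} =
      ((Metric.closedBall (0 : ℂ) r ×ˢ Metric.closedBall (0 : ℂ) R) ∩
      (fun p : ℂ × ℂ => ‖p.2‖ ^ 2 * k p.1) ⁻¹' Iic (1 - Real.exp (-a))) ∩
      (fun p : ℂ × ℂ => ((1 - ‖p.1‖ ^ 2)⁻¹) ^ s +
      Real.log ((1 - ‖p.2‖ ^ 2 * k p.1)⁻¹)) ⁻¹' Iic a := by
    ext p
    constructor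
    · rintro ⟨⟨h1, h2⟩, h3⟩
      obtain ⟨-, h4, h5⟩ := key p h1 h2 h3
      have hz : ‖p.1‖ ≤ r := by
        apply abs_le_of_sq_le_sq' _ hr0 |>.2
        rw [hr2]; exact h4
      have hzb : p.1 ∈ Metric.closedBall (0 : ℂ) r := by simpa using hz
      have hmk := hmle p.1 hzb
      have hw : ‖p.2‖ ≤ R := by
        apply abs_le_of_sq_le_sq' _ hR0 |>.2
        rw [hR2, inv_eq_one_div, le_div_iff₀ hm]
        have : ‖p.2‖ ^ 2 * m ≤ ‖p.2‖ ^ 2 * k p.1 := by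
          apply mul_le_mul_of_nonneg_left hmk (by positivity)
        linarith
      exact ⟨⟨⟨hzb, by simpa using hw⟩, h5⟩, h3⟩
    · rintro ⟨⟨⟨hzb, hwb⟩, h5⟩, h3⟩
      have h1 : ‖p.1‖ ≤ r := by simpa using hzb
      have h5' : ‖p.2‖ ^ 2 * k p.1 ≤ 1 - Real.exp (-a) := h5
      exact ⟨⟨by linarith, by linarith⟩, h3⟩
  rw [heq]
  exact hbox.of_isClosed_subset hcl (inter_subset_left.trans inter_subset_left)

end S14280

namespace S18962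


/-- `2 Y (Y+1) ≤ (Y + 3/4 w) (R - w²/8)` -/
theorem star_ineq_poly {Y P : ℝ} (hY : 0 ≤ Y) (hP0 : 0 ≤ P) (hP : P ≤ 1 / 500) :
    2 * Y * (Y + 1) ≤ (Y + 3 / 4 * (1 + Y * P)) *
      (2 * Y + 1 + Y ^ 2 * P - (1 + Y * P) ^ 2 / 8) := by
  have h1 : 0 ≤ Y * P := mul_nonneg hY hP0
  have h2 : 0 ≤ Y ^ 2 * P := by positivity
  have h3 : 0 ≤ Y ^ 3 * P := by positivity
  have h4 : 0 ≤ Y ^ 3 * P ^ 2 := by positivity
  have h5 : Y ^ 2 * P ^ 2 ≤ Y ^ 2 * P * (1 / 500) := by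
    have := mul_le_mul_of_nonneg_left hP h2
    nlinarith
  have h6 : Y ^ 3 * P ^ 2 ≤ Y ^ 3 * P * (1 / 500) := by
    have := mul_le_mul_of_nonneg_left hP h3
    nlinarith
  have h7 : Y ^ 3 * P ^ 3 ≤ Y ^ 3 * P ^ 2 * (1 / 500) := by
    have := mul_le_mul_of_nonneg_left hP h4
    nlinarith
  have h8 : Y * P ≤ Y * (1 / 500) := mul_le_mul_of_nonneg_left hP hY
  nlinarith


/-- the cubic inequality -/
theorem star_ineq_cubic {Y g θ T κ P J : ℝ} (hY : 0 ≤ Y) (hT : 1 ≤ T) (hθ : 1 ≤ θ) (hθT : θ ≤ T)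
    (hg : 500 * T ^ 6 ≤ g) (hP : P = θ / g) (hκ0 : 0 ≤ κ) (hκ : κ ≤ P / 8)
    (hJ : J * (1 + Y * P) = Y * (Y + 1) * P) :
    2 * T ^ 2 * Y ≤ θ ^ 2 * (J * (3 * Y + 1) / 2 - 6 * κ * Y ^ 2) + 17 / 10 * g := by
  have hT6 : (1 : ℝ) ≤ T ^ 6 := one_le_pow₀ hT
  have hg0 : 0 < g := by linarith
  have hθ0 : 0 < θ := by linarith
  have hP0 : 0 < P := by rw [hP]; positivity
  have hPg : P * g = θ := by rw [hP]; field_simp
  have hYP : 0 ≤ Y * P := mul_nonneg hY hP0.le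
  have hJ0 : 0 ≤ J := by
    by_contra h
    push Not at h
    have h1 : J * (1 + Y * P) < 0 := mul_neg_of_neg_of_pos h (by linarith)
    have h2 : 0 ≤ Y * (Y + 1) * P := by positivity
    linarith
  have hT2 : (1 : ℝ) ≤ T ^ 2 := one_le_pow₀ hT
  have hT3 : (1 : ℝ) ≤ T ^ 3 := one_le_pow₀ hT
  have hY2 : 0 ≤ Y ^ 2 := sq_nonneg Y
  have hY3 : 0 ≤ Y ^ 3 := by positivity
  rcases le_total (Y * P) 1 with hc | hc
  · -- first case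
    have hJ1 : Y * (Y + 1) * P / 2 ≤ J := by
      have : J * (1 + Y * P) ≤ J * 2 := mul_le_mul_of_nonneg_left (by linarith) hJ0
      linarith
    have hJ2 : Y * (Y + 1) * P / 2 * (3 * Y + 1) ≤ J * (3 * Y + 1) :=
      mul_le_mul_of_nonneg_right hJ1 (by linarith)
    have hκ2 : κ * Y ^ 2 ≤ P / 8 * Y ^ 2 := mul_le_mul_of_nonneg_right hκ hY2
    have h1 : 3 / 4 * (Y ^ 3 * P) ≤ J * (3 * Y + 1) / 2 - 6 * κ * Y ^ 2 := by
      have h2 : 0 ≤ Y ^ 2 * P := by positivity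
      nlinarith
    have h3 : θ ^ 2 * (3 / 4 * (Y ^ 3 * P)) ≤
        θ ^ 2 * (J * (3 * Y + 1) / 2 - 6 * κ * Y ^ 2) :=
      mul_le_mul_of_nonneg_left h1 (sq_nonneg θ)
    have h4 : 3 / 4 * (Y ^ 3 / g) ≤ θ ^ 2 * (3 / 4 * (Y ^ 3 * P)) := by
      rw [hP]
      have h5 : θ ^ 2 * (3 / 4 * (Y ^ 3 * (θ / g))) = θ ^ 3 * (3 / 4 * (Y ^ 3 / g)) := by ring
      rw [h5]
      have h6 : (1 : ℝ) ≤ θ ^ 3 := one_le_pow₀ hθ
      have h7 : 0 ≤ 3 / 4 * (Y ^ 3 / g) := by positivity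
      nlinarith
    have h8 : 2 * T ^ 2 * Y ≤ 3 / 4 * (Y ^ 3 / g) + 17 / 10 * g := by
      rcases le_total (2 * T ^ 2 * Y) (17 / 10 * g) with h9 | h9
      · have : 0 ≤ 3 / 4 * (Y ^ 3 / g) := by positivity
        linarith
      · have h10 : (17 / 20 * g) ^ 2 ≤ (T ^ 2 * Y) ^ 2 :=
          pow_le_pow_left₀ (by positivity) (by linarith) 2
        have h11 : 361 * T ^ 2 ≤ Y ^ 2 / g := by
          rw [le_div_iff₀ hg0]
          have hT4 : (0 : ℝ) < T ^ 4 := by positivity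
          have h12 : 361 * T ^ 2 * g * T ^ 4 ≤ Y ^ 2 * T ^ 4 := by
            have h13 : 361 * T ^ 2 * g * T ^ 4 = 361 / 500 * (500 * T ^ 6) * g := by ring
            have h14 : 361 / 500 * (500 * T ^ 6) * g ≤ 361 / 500 * g * g := by gcongr
            nlinarith
          exact le_of_mul_le_mul_right h12 hT4
        have h15 : Y ^ 3 / g = Y * (Y ^ 2 / g) := by ring
        have h16 : Y * (361 * T ^ 2) ≤ Y * (Y ^ 2 / g) := mul_le_mul_of_nonneg_left h11 hY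
        rw [h15]
        nlinarith [mul_nonneg (sq_nonneg T) hY]
    linarith
  · -- second case
    have hYP0 : 0 < Y * P := by linarith
    have hJ1 : (Y + 1) / 2 ≤ J := by
      have h1 : J * (1 + Y * P) ≤ J * (2 * (Y * P)) :=
        mul_le_mul_of_nonneg_left (by linarith) hJ0
      have h2 : (Y + 1) / 2 * (2 * (Y * P)) ≤ J * (2 * (Y * P)) := by
        calc (Y + 1) / 2 * (2 * (Y * P)) = Y * (Y + 1) * P := by ring
          _ = J * (1 + Y * P) := hJ.symm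
          _ ≤ _ := h1
      exact le_of_mul_le_mul_right h2 (by linarith)
    have hJ2 : (Y + 1) / 2 * (3 * Y + 1) ≤ J * (3 * Y + 1) :=
      mul_le_mul_of_nonneg_right hJ1 (by linarith)
    have hP1 : P ≤ 1 / 500 := by
      rw [hP, div_le_div_iff₀ hg0 (by norm_num)]
      have : T ≤ T ^ 6 := le_self_pow₀ hT (by norm_num)
      linarith
    have hκ2 : κ * Y ^ 2 ≤ 1 / 4000 * Y ^ 2 := mul_le_mul_of_nonneg_right (by linarith) hY2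
    have h1 : 1 / 2 * Y ^ 2 ≤ J * (3 * Y + 1) / 2 - 6 * κ * Y ^ 2 := by nlinarith
    have h3 : θ ^ 2 * (1 / 2 * Y ^ 2) ≤
        θ ^ 2 * (J * (3 * Y + 1) / 2 - 6 * κ * Y ^ 2) :=
      mul_le_mul_of_nonneg_left h1 (sq_nonneg θ)
    have h4 : (1 : ℝ) ≤ θ ^ 2 := one_le_pow₀ hθ
    have h5 : 1 / 2 * Y ^ 2 ≤ θ ^ 2 * (1 / 2 * Y ^ 2) := by
      have : 0 ≤ 1 / 2 * Y ^ 2 := by positivity
      nlinarith
    have h6 : 500 * T ^ 5 ≤ Y := by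
      have h7 : g ≤ Y * T := by
        have h8 : g * 1 ≤ g * (Y * P) := mul_le_mul_of_nonneg_left hc hg0.le
        have h9 : g * (Y * P) = Y * θ := by rw [← hPg]; ring
        have h10 : Y * θ ≤ Y * T := mul_le_mul_of_nonneg_left hθT hY
        linarith
      have h11 : 500 * T ^ 5 * T ≤ Y * T := by
        calc 500 * T ^ 5 * T = 500 * T ^ 6 := by ring
          _ ≤ g := hg
          _ ≤ Y * T := h7
      exact le_of_mul_le_mul_right h11 (by linarith)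
    have h12 : 4 * T ^ 2 ≤ Y := by
      have : T ^ 2 ≤ T ^ 5 := pow_le_pow_right₀ hT (by norm_num)
      linarith
    have h13 : 4 * T ^ 2 * Y ≤ Y * Y := mul_le_mul_of_nonneg_right h12 hY
    nlinarith

theorem star_ineq_w2 {Y P : ℝ} (hY : 0 ≤ Y) (hP0 : 0 ≤ P) (hP : P ≤ 1 / 500) :
    (1 + Y * P) ^ 2 ≤ 2 * Y + 1 + Y ^ 2 * P := by
  have hY2P : 0 ≤ Y ^ 2 * P := by positivity
  have h1 : Y * P ≤ Y * 1 := mul_le_mul_of_nonneg_left (by linarith) hY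
  have h2 : Y ^ 2 * P * P ≤ Y ^ 2 * P * 1 := mul_le_mul_of_nonneg_left (by linarith) hY2P
  have h3 : (1 + Y * P) ^ 2 = 1 + 2 * (Y * P) + Y ^ 2 * P * P := by ring
  linarith

theorem star_ineq_quot {Y θ w R D X : ℝ} (hY : 0 ≤ Y) (hθ : 0 < θ) (hw : 0 < w) (hD : 0 ≤ D)
    (hZ : 0 < R - w ^ 2 / 8) (hX : θ * (R - w ^ 2 / 8) / w ≤ X)
    (hpoly : 2 * Y * (Y + 1) ≤ (Y + 3 / 4 * w) * (R - w ^ 2 / 8)) :
    2 * (Y * (Y + 1)) * (D / w ^ 2) / X ≤ Y * D / (θ * w) + 3 / 4 * (D / θ) := by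
  set Z : ℝ := R - w ^ 2 / 8 with hZdef
  have hX0 : 0 < θ * Z / w := by positivity
  have h1 : 2 * (Y * (Y + 1)) * (D / w ^ 2) / X ≤
      2 * (Y * (Y + 1)) * (D / w ^ 2) / (θ * Z / w) := by
    apply div_le_div_of_nonneg_left _ hX0 hX
    positivity
  refine h1.trans ?_
  have h2 : 2 * (Y * (Y + 1)) * (D / w ^ 2) / (θ * Z / w) =
      (2 * Y * (Y + 1)) * (D / (θ * w * Z)) := by
    field_simp
  have h3 : Y * D / (θ * w) + 3 / 4 * (D / θ) =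
      ((Y + 3 / 4 * w) * Z) * (D / (θ * w * Z)) := by
    field_simp
  rw [h2, h3]
  apply mul_le_mul_of_nonneg_right hpoly
  positivity

theorem star_ineq_last {κ B : ℝ} (h0 : 0 ≤ κ) (h1 : κ ≤ 1) :
    B ^ 2 / (2 - κ) ≤ (1 + κ) / 2 * B ^ 2 := by
  rw [div_le_iff₀ (by linarith)]
  have h2 : 0 ≤ κ * (1 - κ) := mul_nonneg h0 (by linarith)
  have h3 : 0 ≤ B ^ 2 * (κ * (1 - κ)) := mul_nonneg (sq_nonneg _) h2
  have h4 : (1 + κ) / 2 * B ^ 2 * (2 - κ) = B ^ 2 + B ^ 2 * (κ * (1 - κ)) / 2 := by ring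
  rw [h4]
  linarith

theorem star_ineq_four {Y θ κ J : ℝ} (hY : 0 ≤ Y) (hκ0 : 0 ≤ κ) (hJ0 : 0 ≤ J) (hJ1 : J ≤ Y + 1) :
    θ ^ 2 * (-1 / 2 + J * (3 * Y + 1) / 2 - κ * (2 * Y + 1) ^ 2 / 2) ≤
      2 * (Y * (Y + 1)) * θ ^ 2 - (1 + κ) / 2 * (θ * (2 * Y + 1 - J)) ^ 2 := by
  have h1 : 2 * (Y * (Y + 1)) * θ ^ 2 - (1 + κ) / 2 * (θ * (2 * Y + 1 - J)) ^ 2 =
      θ ^ 2 * (2 * (Y * (Y + 1)) - (1 + κ) / 2 * (2 * Y + 1 - J) ^ 2) := by ring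
  rw [h1]
  apply mul_le_mul_of_nonneg_left _ (sq_nonneg θ)
  have h2 : (2 * Y + 1 - J) ^ 2 ≤ (2 * Y + 1) ^ 2 :=
    pow_le_pow_left₀ (by linarith) (by linarith) 2
  have h3 : κ * (2 * Y + 1 - J) ^ 2 ≤ κ * (2 * Y + 1) ^ 2 := mul_le_mul_of_nonneg_left h2 hκ0
  have h4 : J * J ≤ J * (Y + 1) := mul_le_mul_of_nonneg_left hJ1 hJ0
  have h5 : 2 * (Y * (Y + 1)) - (1 + κ) / 2 * (2 * Y + 1 - J) ^ 2 =
      -1 / 2 + (2 * Y + 1) * J - J * J / 2 - κ * (2 * Y + 1 - J) ^ 2 / 2 := by ring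
  have h6 : J * (3 * Y + 1) / 2 = (2 * Y + 1) * J - J * (Y + 1) / 2 := by ring
  rw [h5, h6]
  linarith

theorem star_ineq_five {Y g θ η κ P : ℝ} (hη : 0 ≤ η) (hg : 0 ≤ g)
    (hκg : κ * g = η / 8) (hPg : P * g = θ) :
    κ * (g * (1 + Y * P)) ^ 2 ≤ η * g / 4 + 2 * κ * Y ^ 2 * θ ^ 2 := by
  have h1 : κ * (g * (1 + Y * P)) ^ 2 = (κ * g) * g * (1 + Y * P) ^ 2 := by ring
  have h2 : (1 + Y * P) ^ 2 ≤ 2 + 2 * (Y * P) ^ 2 := by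
    nlinarith [sq_nonneg (1 - Y * P)]
  have h3 : η / 8 * g * (1 + Y * P) ^ 2 ≤ η / 8 * g * (2 + 2 * (Y * P) ^ 2) :=
    mul_le_mul_of_nonneg_left h2 (by positivity)
  have h4 : η * g / 4 + 2 * κ * Y ^ 2 * θ ^ 2 = (η / 8) * g * 2 + 2 * (κ * g) * Y ^ 2 * P ^ 2 * g := by
    rw [← hPg]
    ring
  rw [h4, h1, hκg]
  refine h3.trans (le_of_eq ?_)
  ring

theorem star_ineq_Yk {Y θ T kθ S : ℝ} (hY : 0 ≤ Y) (hT : 1 ≤ T) (hθ : 1 ≤ θ)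
    (hS : S ≤ T ^ 2) (hkθ : |kθ| ≤ T) : -(2 * T ^ 2 * Y) ≤ Y * kθ - Y * S / θ := by
  have hθ0 : 0 < θ := by linarith
  have h1 : -T ≤ kθ := (abs_le.1 hkθ).1
  have h2 : T ≤ T ^ 2 := le_self_pow₀ hT (by norm_num)
  have h3 : S / θ ≤ T ^ 2 := by
    rw [div_le_iff₀ hθ0]
    have h4 : T ^ 2 * 1 ≤ T ^ 2 * θ := mul_le_mul_of_nonneg_left hθ (sq_nonneg T)
    linarith
  have h5 : Y * S / θ = Y * (S / θ) := by ring
  rw [h5]
  have h6 : Y * (-(2 * T ^ 2)) ≤ Y * (kθ - S / θ) :=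
    mul_le_mul_of_nonneg_left (by linarith) hY
  have h7 : Y * (-(2 * T ^ 2)) = -(2 * T ^ 2 * Y) := by ring
  have h8 : Y * (kθ - S / θ) = Y * kθ - Y * (S / θ) := by ring
  linarith

theorem star_ineq_D {g θ T M η S N D P : ℝ} (hT : 1 ≤ T) (hη : 1 ≤ η) (hηθ : η ≤ θ)
    (hθT : θ ≤ T) (hS : S ≤ T ^ 2) (hg : 100 * (M ^ 2 + 1) * T ^ 6 ≤ g)
    (hN : N ≤ M ^ 2 * η * g ^ 2) (hPg : P * g = θ) (hD : D ≤ 2 * S + 2 * P ^ 2 * N) :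
    3 / 4 * (D / θ) ≤ 3 / 200 * g := by
  have hθ0 : 0 < θ := by linarith
  have h1 : P ^ 2 * N ≤ θ ^ 2 * M ^ 2 * η := by
    have h2 : P ^ 2 * N ≤ P ^ 2 * (M ^ 2 * η * g ^ 2) := mul_le_mul_of_nonneg_left hN (sq_nonneg P)
    have h3 : P ^ 2 * (M ^ 2 * η * g ^ 2) = θ ^ 2 * M ^ 2 * η := by
      rw [← hPg]; ring
    linarith
  have h4 : D / θ ≤ 2 * T ^ 2 * (1 + M ^ 2) := by
    rw [div_le_iff₀ hθ0]
    have h5 : D ≤ 2 * T ^ 2 + 2 * (θ ^ 2 * M ^ 2 * η) := by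
      have h6 : 2 * P ^ 2 * N = 2 * (P ^ 2 * N) := by ring
      rw [h6] at hD
      linarith
    have h6 : θ * η ≤ T * T := mul_le_mul hθT (hηθ.trans hθT) (by linarith) (by linarith)
    have h7 : θ ^ 2 * M ^ 2 * η ≤ T ^ 2 * M ^ 2 * θ := by
      have h8 : θ ^ 2 * M ^ 2 * η = (θ * M ^ 2) * (θ * η) := by ring
      have h9 : T ^ 2 * M ^ 2 * θ = (θ * M ^ 2) * (T * T) := by ring
      rw [h8, h9]
      exact mul_le_mul_of_nonneg_left h6 (by positivity)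
    have h10 : 2 * T ^ 2 * 1 ≤ 2 * T ^ 2 * θ :=
      mul_le_mul_of_nonneg_left (by linarith) (by positivity)
    have h11 : 2 * T ^ 2 * (1 + M ^ 2) * θ = 2 * T ^ 2 * θ + 2 * (T ^ 2 * M ^ 2 * θ) := by ring
    rw [h11]
    linarith
  have h11 : T ^ 2 * (1 + M ^ 2) ≤ T ^ 6 * (1 + M ^ 2) := by
    apply mul_le_mul_of_nonneg_right _ (by positivity)
    exact pow_le_pow_right₀ hT (by norm_num)
  have h12 : 100 * (M ^ 2 + 1) * T ^ 6 = 100 * (T ^ 6 * (1 + M ^ 2)) := by ring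
  have h13 : 2 * T ^ 2 * (1 + M ^ 2) = 2 * (T ^ 2 * (1 + M ^ 2)) := by ring
  rw [h12] at hg
  rw [h13] at h4
  linarith

theorem star_ineq_pk {Y θ κ : ℝ} (hκ0 : 0 ≤ κ) :
    θ ^ 2 * (κ * (2 * Y + 1) ^ 2 / 2) + 2 * κ * Y ^ 2 * θ ^ 2 ≤
      θ ^ 2 * (6 * κ * Y ^ 2) + θ ^ 2 * κ := by
  have h1 : θ ^ 2 * (6 * κ * Y ^ 2) + θ ^ 2 * κ -
      (θ ^ 2 * (κ * (2 * Y + 1) ^ 2 / 2) + 2 * κ * Y ^ 2 * θ ^ 2) =
      θ ^ 2 * κ * (2 * (Y - 1 / 2) ^ 2) := by ring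
  have h2 : 0 ≤ θ ^ 2 * κ * (2 * (Y - 1 / 2) ^ 2) := by positivity
  linarith

theorem star_ineq_Mg {g M η : ℝ} (hg : 0 ≤ g) (hM : 2 ≤ M) (hη : 1 ≤ η) :
    7 / 4 * g ≤ M * η * g - η * g / 4 := by
  have h1 : 0 ≤ (M - 2) * (η * g) := by
    apply mul_nonneg (by linarith)
    apply mul_nonneg (by linarith) hg
  have h2 : 0 ≤ (η - 1) * g := mul_nonneg (by linarith) hg
  have h3 : M * η * g - η * g / 4 = (M - 2) * (η * g) + 7 / 4 * ((η - 1) * g) + 7 / 4 * g := by ring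
  rw [h3]
  linarith

theorem star_ineq_fin {a1 a2 a3 a4 a5 a6 a7 a8 a9 a10 a11 a12 a13 a14 a15 a16 a17 a18 a19 g gz : ℝ}
    (h1 : -a19 + a1 - a2 ≤ a14 - a8) (h2 : a9 ≤ a17 + a4) (h3 : a18 ≤ a1 - a3 + 17 / 10 * g)
    (h4 : -a18 ≤ a16 - a11) (h5 : 3 / 4 * a13 ≤ 3 / 200 * g) (h6 : a19 ≤ 1 / 1000 * g)
    (h7 : a5 ≤ 1 / 1000 * g) (h8 : a2 + a4 ≤ a3 + a5) (h9 : 7 / 4 * g ≤ a15 - a17)
    (h10 : a7 ≤ a8) (h11 : a6 ≤ a10 + 3 / 4 * a13) (h12 : a15 ≤ gz - a12) (hg : 0 ≤ g) :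
    0 ≤ a14 + (gz + a16) - (a12 + a11 - a10) - a9 - a6 - a7 := by
  linarith

/-- the real variable form -/
theorem star_ineq_real {Y g θ T M η κ kθ gzz S N D P w Bt : ℝ}
    (hY : 0 ≤ Y) (hT : 1 ≤ T) (hM : 2 ≤ M) (hη : 1 ≤ η) (hηθ : η ≤ θ) (hθT : θ ≤ T)
    (hS : S ≤ T ^ 2) (hkθ : |kθ| ≤ T) (hg : 100 * (M ^ 2 + 1) * T ^ 6 ≤ g)
    (hN : N ≤ M ^ 2 * η * g ^ 2) (hgzz : M * η * g ≤ gzz - N / g)
    (hκ : κ = η / (8 * g)) (hP : P = θ / g) (hw : w = 1 + Y * P)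
    (hD0 : 0 ≤ D) (hD : D ≤ 2 * S + 2 * P ^ 2 * N)
    (hBt : Bt = θ * (2 * Y + 1 + Y ^ 2 * P) / w) :
    κ * (g * w) < Bt ∧
    0 ≤ 2 * (Y * (Y + 1)) * θ ^ 2 + (gzz + Y * kθ) - (N / g + Y * S / θ - Y * D / (θ * w)) -
      κ * (g * w) ^ 2 - 2 * (Y * (Y + 1)) * (D / w ^ 2) / (Bt - κ * (g * w)) -
      Bt ^ 2 / (2 - κ) := by
  have hT6 : (1 : ℝ) ≤ T ^ 6 := one_le_pow₀ hT
  have hM2 : (4 : ℝ) ≤ M ^ 2 := by
    have := pow_le_pow_left₀ (by norm_num) hM 2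
    linarith
  have hg500 : 500 * T ^ 6 ≤ g := by
    have : 500 * T ^ 6 ≤ 100 * (M ^ 2 + 1) * T ^ 6 :=
      mul_le_mul_of_nonneg_right (by linarith) (by linarith)
    linarith
  have hg0 : 0 < g := by linarith
  have hθ1 : 1 ≤ θ := hη.trans hηθ
  have hθ0 : 0 < θ := by linarith
  have hη0 : 0 < η := by linarith
  have hP0 : 0 < P := by rw [hP]; positivity
  have hPg : P * g = θ := by rw [hP]; field_simp
  have hP1 : P ≤ 1 / 500 := by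
    rw [hP, div_le_div_iff₀ hg0 (by norm_num)]
    have : T ≤ T ^ 6 := le_self_pow₀ hT (by norm_num)
    linarith
  have hκg : κ * g = η / 8 := by rw [hκ]; field_simp
  have hκ0 : 0 < κ := by rw [hκ]; positivity
  have hκP : κ ≤ P / 8 := by
    rw [hκ, hP, div_div, mul_comm g 8]
    gcongr
  have hYP : 0 ≤ Y * P := mul_nonneg hY hP0.le
  have hw1 : 1 ≤ w := by rw [hw]; linarith
  have hw0 : 0 < w := by linarith
  have hw2 : w ^ 2 ≤ 2 * Y + 1 + Y ^ 2 * P := by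
    rw [hw]
    exact star_ineq_w2 hY hP0.le hP1
  have hkgw : κ * (g * w) ≤ θ * w / 8 := by
    have h1 : κ * (g * w) = η * w / 8 := by
      have : κ * (g * w) = κ * g * w := by ring
      rw [this, hκg]; ring
    rw [h1]
    have := mul_le_mul_of_nonneg_right hηθ hw0.le
    linarith
  have hBw : θ * w ≤ Bt := by
    rw [hBt, le_div_iff₀ hw0]
    have h1 := mul_le_mul_of_nonneg_left hw2 hθ0.le
    have h2 : θ * w * w = θ * w ^ 2 := by ring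
    rw [h2]
    exact h1
  have hθw : 0 < θ * w := mul_pos hθ0 hw0
  have hfirst : κ * (g * w) < Bt := by linarith
  refine ⟨hfirst, ?_⟩
  have hpoly := star_ineq_poly hY hP0.le hP1
  rw [← hw] at hpoly
  have hZ0 : 0 < 2 * Y + 1 + Y ^ 2 * P - w ^ 2 / 8 := by
    have : 1 ≤ w ^ 2 := one_le_pow₀ hw1
    linarith
  have hX : θ * (2 * Y + 1 + Y ^ 2 * P - w ^ 2 / 8) / w ≤ Bt - κ * (g * w) := by
    have h1 : θ * (2 * Y + 1 + Y ^ 2 * P - w ^ 2 / 8) / w = Bt - θ * w / 8 := by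
      rw [hBt]
      field_simp
    rw [h1]
    linarith
  have hquot := star_ineq_quot hY hθ0 hw0 hD0 hZ0 hX hpoly
  have hlast := star_ineq_last (κ := κ) (B := Bt) hκ0.le (by linarith)
  have hJw : (Y * (Y + 1) * P / w) * w = Y * (Y + 1) * P := by field_simp
  have hJ0 : 0 ≤ Y * (Y + 1) * P / w := by positivity
  have hJ1 : Y * (Y + 1) * P / w ≤ Y + 1 := by
    rw [div_le_iff₀ hw0, hw]
    have : (Y + 1) * (1 + Y * P) = (Y + 1) + Y * (Y + 1) * P := by ring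
    rw [this]
    linarith
  generalize hJ : Y * (Y + 1) * P / w = J at hJw hJ0 hJ1
  have hBJ : Bt = θ * (2 * Y + 1 - J) := by
    rw [hBt, div_eq_iff hw0.ne']
    have h1 : θ * (2 * Y + 1 - J) * w = θ * ((2 * Y + 1) * w - J * w) := by ring
    rw [h1, hJw, hw]
    ring
  have hfour := star_ineq_four (θ := θ) hY hκ0.le hJ0 hJ1
  rw [← hBJ] at hfour
  have hfive : κ * (g * w) ^ 2 ≤ η * g / 4 + 2 * κ * Y ^ 2 * θ ^ 2 := by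
    rw [hw]
    exact star_ineq_five hη0.le hg0.le hκg hPg
  have hcub := star_ineq_cubic hY hT hθ1 hθT hg500 hP hκ0.le hκP (by rw [← hw]; exact hJw)
  have hYk := star_ineq_Yk hY hT hθ1 hS hkθ
  have hDθ := star_ineq_D hT hη hηθ hθT hS hg hN hPg hD
  have hθ2 : θ ^ 2 / 2 ≤ 1 / 1000 * g := by
    have h1 : θ ^ 2 ≤ T ^ 2 := pow_le_pow_left₀ hθ0.le hθT 2
    have h2 : T ^ 2 ≤ T ^ 6 := pow_le_pow_right₀ hT (by norm_num)
    linarith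
  have hθκ : θ ^ 2 * κ ≤ 1 / 1000 * g := by
    have h1 : θ ^ 2 * κ ≤ θ ^ 2 * (1 / 4000) := mul_le_mul_of_nonneg_left (by linarith) (sq_nonneg θ)
    linarith [sq_nonneg θ]
  have hpk := star_ineq_pk (Y := Y) (θ := θ) hκ0.le
  have hMg := star_ineq_Mg hg0.le hM hη
  have hf : θ ^ 2 * (-1 / 2 + J * (3 * Y + 1) / 2 - κ * (2 * Y + 1) ^ 2 / 2) =
      -(θ ^ 2 / 2) + θ ^ 2 * (J * (3 * Y + 1) / 2) - θ ^ 2 * (κ * (2 * Y + 1) ^ 2 / 2) := by ring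
  have hc : θ ^ 2 * (J * (3 * Y + 1) / 2 - 6 * κ * Y ^ 2) =
      θ ^ 2 * (J * (3 * Y + 1) / 2) - θ ^ 2 * (6 * κ * Y ^ 2) := by ring
  rw [hf] at hfour
  rw [hc] at hcub
  exact star_ineq_fin hfour hfive hcub hYk hDθ hθ2 hθκ hpk hMg hlast hquot hgzz hg0.le

theorem star_ineq_norms (σ γ : ℂ) (Y P : ℝ) :
    ‖σ - (P : ℂ) * γ‖ ^ 2 = ‖σ‖ ^ 2 + P ^ 2 * ‖γ‖ ^ 2 - 2 * P * (σ.re * γ.re + σ.im * γ.im) ∧
    ‖γ + (Y : ℂ) * σ‖ ^ 2 = ‖γ‖ ^ 2 + Y ^ 2 * ‖σ‖ ^ 2 + 2 * Y * (σ.re * γ.re + σ.im * γ.im) := by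
  simp only [← Complex.normSq_eq_norm_sq, Complex.normSq_apply, Complex.sub_re, Complex.sub_im,
    Complex.add_re, Complex.add_im, Complex.mul_re, Complex.mul_im, Complex.ofReal_re,
    Complex.ofReal_im]
  constructor <;> ring

theorem star_ineq {Y g θ T M η κ kθ gzz q β Bt Aa : ℝ} {σ γ qz e : ℂ}
    (hY : 0 ≤ Y) (hT : 1 ≤ T) (hM : 2 ≤ M) (hη : 1 ≤ η) (hηθ : η ≤ θ) (hθT : θ ≤ T)
    (hσ : ‖σ‖ ≤ T) (hkθ : |kθ| ≤ T) (hg : 100 * (M ^ 2 + 1) * T ^ 6 ≤ g)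
    (hγ : ‖γ‖ ^ 2 ≤ M ^ 2 * η * g ^ 2) (hgzz : M * η * g ≤ gzz - ‖γ‖ ^ 2 / g)
    (hκ : κ = η / (8 * g)) (hq : q = g + Y * θ) (hβ : β = Y * (Y + 1))
    (hqz : qz = γ + (Y : ℂ) * σ) (he : e = σ - (θ : ℂ) * qz / (q : ℂ))
    (hBt : Bt = (2 * Y + 1) * θ - β * θ ^ 2 / q)
    (hAa : Aa = 2 * β * θ ^ 2 + (gzz + Y * kθ) - ‖qz‖ ^ 2 / q) :
    κ * q < Bt ∧
    0 ≤ Aa - κ * q ^ 2 - 2 * β * ‖e‖ ^ 2 / (Bt - κ * q) - Bt ^ 2 / (2 - κ) := by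
  have hT6 : (1 : ℝ) ≤ T ^ 6 := one_le_pow₀ hT
  have hg0 : 0 < g := by
    have h1 : 0 < 100 * (M ^ 2 + 1) * T ^ 6 := by positivity
    linarith
  have hθ0 : 0 < θ := by linarith
  obtain ⟨P, hP⟩ : ∃ P : ℝ, P = θ / g := ⟨_, rfl⟩
  obtain ⟨w, hw⟩ : ∃ w : ℝ, w = 1 + Y * P := ⟨_, rfl⟩
  have hP0 : 0 < P := by rw [hP]; positivity
  have hPg : θ = P * g := by rw [hP]; field_simp
  have hw0 : 0 < w := by
    rw [hw]
    have := mul_nonneg hY hP0.le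
    linarith
  have hqw : q = g * w := by
    rw [hq, hw, hPg]
    ring
  obtain ⟨hn1, hn2⟩ := star_ineq_norms σ γ Y P
  -- the modulus of e
  have hew : e * (w : ℂ) = σ - (P : ℂ) * γ := by
    have hgc : (g : ℂ) ≠ 0 := Complex.ofReal_ne_zero.2 hg0.ne'
    have hwc : (w : ℂ) ≠ 0 := Complex.ofReal_ne_zero.2 hw0.ne'
    have hwc2 : (w : ℂ) = 1 + Y * P := by rw [hw]; push_cast; ring
    rw [he, hqz, hqw, hPg]
    push_cast
    rw [sub_mul]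
    have h1 : (P : ℂ) * g * (γ + Y * σ) / (g * w) * w = P * (γ + Y * σ) := by
      field_simp
    rw [h1, hwc2]
    ring
  have hE : ‖e‖ ^ 2 = ‖σ - (P : ℂ) * γ‖ ^ 2 / w ^ 2 := by
    rw [← hew, norm_mul, Complex.norm_real, Real.norm_of_nonneg hw0.le]
    field_simp
  have hQ : ‖qz‖ ^ 2 / q = ‖γ‖ ^ 2 / g + Y * ‖σ‖ ^ 2 / θ -
      Y * ‖σ - (P : ℂ) * γ‖ ^ 2 / (θ * w) := by
    rw [hqz, hn1, hn2, hqw, hPg]
    field_simp
    rw [hw]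
    ring
  have hB : Bt = θ * (2 * Y + 1 + Y ^ 2 * P) / w := by
    rw [hBt, hβ, hqw, hPg]
    field_simp
    rw [hw]
    ring
  have hD : ‖σ - (P : ℂ) * γ‖ ^ 2 ≤ 2 * ‖σ‖ ^ 2 + 2 * P ^ 2 * ‖γ‖ ^ 2 := by
    have h1 : ‖σ - (P : ℂ) * γ‖ ≤ ‖σ‖ + P * ‖γ‖ := by
      refine (norm_sub_le _ _).trans ?_
      rw [norm_mul, Complex.norm_real, Real.norm_of_nonneg hP0.le]
    have h2 : ‖σ - (P : ℂ) * γ‖ ^ 2 ≤ (‖σ‖ + P * ‖γ‖) ^ 2 :=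
      pow_le_pow_left₀ (norm_nonneg _) h1 2
    nlinarith [sq_nonneg (‖σ‖ - P * ‖γ‖)]
  have hmain := star_ineq_real hY hT hM hη hηθ hθT (pow_le_pow_left₀ (norm_nonneg σ) hσ 2) hkθ hg
    hγ hgzz hκ hP hw (sq_nonneg ‖σ - (P : ℂ) * γ‖) hD hB
  rw [hAa, hQ, hE, hβ, hqw]
  exact hmain

end S18962

end Pool.Agent.KS6_69.Ric.H269.KdJ2
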